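import Pool.Agent.X161.EM.Fin

/-!
# Exclusive-copy edge-mapping numbers: the global and the host-graph versions differ

For the path `G` with two edges, `p(8, G) = 14` while `s(8, G) ≤ 13`.
-/

set_option autoImplicit false

namespace Pool.Agent.Results.MP_f12eed_co.PathOnEight

/-- The copy `φ` of `G` in `H` is `f`-exclusive: for every edge `e` of the copy the edge `f e`
has no vertex in the vertex set of the copy.  Copies of `G` in `H` are given by the injective
homomorphisms `φ` from `G` to `H`; the vertex set of the copy is the range of `φ` and its edges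
are the images of the edges of `G`. -/
def Exclusive {U V : Type} {G : SimpleGraph U} {H : SimpleGraph V} (f : H.edgeSet → H.edgeSet)
    (φ : G.Copy H) : Prop :=
  ∀ e : G.edgeSet, ∀ v ∈ (f (φ.mapEdgeSet e) : Sym2 V), v ∉ Set.range φ

/-- `f` is `G`-blocking on `H`: no copy of `G` in `H` is `f`-exclusive. -/
def Blocking {U V : Type} (G : SimpleGraph U) {H : SimpleGraph V}
    (f : H.edgeSet → H.edgeSet) : Prop :=
  ¬ ∃ φ : G.Copy H, Exclusive f φ

/-- The edge `f e` is disjoint from the edge `e`. -/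
def Moves {V : Type} {H : SimpleGraph V} (f : H.edgeSet → H.edgeSet) (e : H.edgeSet) : Prop :=
  ∀ v ∈ (f e : Sym2 V), v ∉ (e : Sym2 V)

/-- The host-graph number `s(n, G)`: the largest number of edges of a graph `H` on `n` vertices
such that some map `f : E(H) → E(H)` with `f(e) ∩ e = ∅` for every edge is `G`-blocking on `H`. -/
noncomputable def s {U : Type} (n : ℕ) (G : SimpleGraph U) : ℕ :=
  sSup {m | ∃ H : SimpleGraph (Fin n), ∃ f : H.edgeSet → H.edgeSet,
    (∀ e, Moves f e) ∧ Blocking G f ∧ H.edgeSet.ncard = m}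

/-- The global number `p(n, G)`: the largest `m ≤ n.choose 2` such that some map
`f : E(K_n) → E(K_n)` with `f(e) ∩ e = ∅` for at least `m` edges is `G`-blocking on `K_n`. -/
noncomputable def p {U : Type} (n : ℕ) (G : SimpleGraph U) : ℕ :=
  sSup {m | m ≤ n.choose 2 ∧
    ∃ f : (⊤ : SimpleGraph (Fin n)).edgeSet → (⊤ : SimpleGraph (Fin n)).edgeSet,
      m ≤ {e | Moves f e}.ncard ∧ Blocking G f}

open Pool.Agent.X161.EM

/-- The copy of the path given by two edges with a common end. -/
def pathCopy {H : SimpleGraph (Fin 8)} {a b c : Fin 8} (hab : H.Adj a b) (hbc : H.Adj b c)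
    (hac : a ≠ c) : (SimpleGraph.pathGraph 3).Copy H where
  toHom :=
    { toFun := ![a, b, c]
      map_rel' := by
        intro i j hij
        rw [SimpleGraph.pathGraph_adj] at hij
        fin_cases i <;> fin_cases j <;> simp at hij ⊢ <;>
          first | assumption | exact hab.symm | exact hbc.symm }
  injective' := by
    have h1 := hab.ne
    have h2 := hbc.ne
    intro i j hij
    fin_cases i <;> fin_cases j <;> simp_all

lemma pathCopy_range {H : SimpleGraph (Fin 8)} {a b c : Fin 8} (hab : H.Adj a b)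
    (hbc : H.Adj b c) (hac : a ≠ c) (v : Fin 8) :
    v ∈ Set.range (pathCopy hab hbc hac) ↔ v = a ∨ v = b ∨ v = c := by
  constructor
  · rintro ⟨i, rfl⟩
    fin_cases i
    · exact Or.inl rfl
    · exact Or.inr (Or.inl rfl)
    · exact Or.inr (Or.inr rfl)
  · rintro (rfl | rfl | rfl)
    · exact ⟨0, rfl⟩
    · exact ⟨1, rfl⟩
    · exact ⟨2, rfl⟩

/-- The set of the vertices of the edge `f e`. -/
noncomputable def vals {H : SimpleGraph (Fin 8)} (f : H.edgeSet → H.edgeSet)
    (e : Sym2 (Fin 8)) : Finset (Fin 8) := by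
  classical
  exact if h : e ∈ H.edgeSet then (f ⟨e, h⟩ : Sym2 (Fin 8)).toFinset else ∅

lemma vals_of {H : SimpleGraph (Fin 8)} (f : H.edgeSet → H.edgeSet) (e : Sym2 (Fin 8))
    (h : e ∈ H.edgeSet) : vals f e = (f ⟨e, h⟩ : Sym2 (Fin 8)).toFinset := by
  classical
  unfold vals
  rw [dif_pos h]

lemma mem_vals {H : SimpleGraph (Fin 8)} (f : H.edgeSet → H.edgeSet) (e : Sym2 (Fin 8))
    (h : e ∈ H.edgeSet) (v : Fin 8) : v ∈ vals f e ↔ v ∈ (f ⟨e, h⟩ : Sym2 (Fin 8)) := by
  rw [vals_of f e h, Sym2.mem_toFinset]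

/-- The relation of being joined by a moved edge. -/
def Good {H : SimpleGraph (Fin 8)} (f : H.edgeSet → H.edgeSet) (a b : Fin 8) : Prop :=
  ∃ h : s(a, b) ∈ H.edgeSet, Moves f ⟨s(a, b), h⟩

lemma good_symm {H : SimpleGraph (Fin 8)} (f : H.edgeSet → H.edgeSet) (a b : Fin 8)
    (h : Good f a b) : Good f b a := by
  unfold Good at h ⊢
  rw [Sym2.eq_swap]
  exact h

/-- The data given by a blocking map. -/
noncomputable def data {H : SimpleGraph (Fin 8)} (f : H.edgeSet → H.edgeSet)
    (hf : Blocking (SimpleGraph.pathGraph 3) f) : Data where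
  adj := Good f
  dec := Classical.decRel _
  symm := good_symm f
  irrefl := by
    rintro a ⟨h, -⟩
    exact H.irrefl ((SimpleGraph.mem_edgeSet _).1 h)
  F a b := vals f s(a, b)
  Fsymm a b := by rw [Sym2.eq_swap]
  card := by
    rintro a b ⟨h, -⟩
    rw [vals_of f _ h]
    generalize (f ⟨s(a, b), h⟩ : Sym2 (Fin 8)) = z
    revert z
    decide +kernel
  nl := by
    rintro a b ⟨h, hm⟩ ha
    rw [mem_vals f _ h] at ha
    exact hm a ha (by simp)
  nr := by
    rintro a b ⟨h, hm⟩ ha
    rw [mem_vals f _ h] at ha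
    exact hm b ha (by simp)
  block := by
    rintro a b c ⟨h, hm⟩ ⟨h', hm'⟩ hac
    by_contra hcon
    rw [not_or, mem_vals f _ h, mem_vals f _ h'] at hcon
    apply hf
    have hab : H.Adj a b := (SimpleGraph.mem_edgeSet _).1 h
    have hbc : H.Adj b c := (SimpleGraph.mem_edgeSet _).1 h'
    refine ⟨pathCopy hab hbc hac, ?_⟩
    rintro ⟨e, he⟩ v hv hr
    rw [pathCopy_range] at hr
    induction e using Sym2.ind with
    | _ i j =>
      have he' := he
      rw [SimpleGraph.mem_edgeSet, SimpleGraph.pathGraph_adj] at he'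
      have key : (((pathCopy hab hbc hac).mapEdgeSet ⟨s(i, j), he⟩ : H.edgeSet) : Sym2 (Fin 8)) =
          s(![a, b, c] i, ![a, b, c] j) := rfl
      have key2 : (pathCopy hab hbc hac).mapEdgeSet ⟨s(i, j), he⟩ = ⟨s(a, b), h⟩ ∨
          (pathCopy hab hbc hac).mapEdgeSet ⟨s(i, j), he⟩ = ⟨s(b, c), h'⟩ := by
        rw [Subtype.ext_iff, Subtype.ext_iff, key]
        fin_cases i <;> fin_cases j <;> simp at he' ⊢
      rcases key2 with k | k
      · rw [k] at hv
        rcases hr with rfl | rfl | rfl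
        · exact hm _ hv (by simp)
        · exact hm _ hv (by simp)
        · exact hcon.1 hv
      · rw [k] at hv
        rcases hr with rfl | rfl | rfl
        · exact hcon.2 hv
        · exact hm' _ hv (by simp)
        · exact hm' _ hv (by simp)

/-- The number of the ordered pairs is twice the number of moved edges. -/
lemma data_E {H : SimpleGraph (Fin 8)} (f : H.edgeSet → H.edgeSet)
    (hf : Blocking (SimpleGraph.pathGraph 3) f) :
    (data f hf).E = 2 * ({e | Moves f e}.ncard : ℤ) := by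
  classical
  let K : SimpleGraph (Fin 8) :=
    { Adj := Good f
      symm := ⟨good_symm f⟩
      loopless := ⟨(data f hf).irrefl⟩ }
  have h1 : (data f hf).E = ∑ a, (K.degree a : ℤ) := by
    unfold Data.E
    refine Finset.sum_congr rfl fun a _ => ?_
    unfold Data.h
    rw [Finset.sum_boole, ← SimpleGraph.card_neighborFinset_eq_degree]
    congr 2
    ext b
    rw [Finset.mem_filter, SimpleGraph.mem_neighborFinset]
    exact ⟨fun h => h.2, fun h => ⟨Finset.mem_univ _, h⟩⟩
  rw [h1]
  have h2 := K.sum_degrees_eq_twice_card_edges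
  have h3 : K.edgeFinset.card = {e | Moves f e}.ncard := by
    rw [← Set.ncard_image_of_injective _ Subtype.val_injective, ← Set.ncard_coe_finset]
    congr 1
    ext e
    rw [SimpleGraph.coe_edgeFinset]
    induction e using Sym2.ind with
    | _ a b =>
      rw [SimpleGraph.mem_edgeSet]
      constructor
      · rintro ⟨h, hm⟩
        exact ⟨⟨s(a, b), h⟩, hm, rfl⟩
      · rintro ⟨⟨e, he⟩, hm, hee⟩
        simp only at hee
        subst hee
        exact ⟨he, hm⟩
  rw [h3] at h2
  exact_mod_cast h2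

lemma moves_le {H : SimpleGraph (Fin 8)} (f : H.edgeSet → H.edgeSet)
    (hf : Blocking (SimpleGraph.pathGraph 3) f) : {e | Moves f e}.ncard ≤ 14 := by
  have h1 := data_E f hf
  have h2 := E_le (data f hf)
  omega

lemma host_le {H : SimpleGraph (Fin 8)} (f : H.edgeSet → H.edgeSet) (hm : ∀ e, Moves f e)
    (hf : Blocking (SimpleGraph.pathGraph 3) f) : H.edgeSet.ncard ≤ 13 := by
  have h1 := data_E f hf
  have h2 := E_le (data f hf)
  have h3 : {e | Moves f e}.ncard = H.edgeSet.ncard := by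
    have : {e | Moves f e} = Set.univ := by
      ext e
      simp [hm e]
    rw [this, ← Set.ncard_image_of_injective _ Subtype.val_injective]
    simp
  have h4 : (data f hf).Good := by
    rintro a b ⟨h, -⟩
    obtain ⟨⟨e, he⟩, hfe⟩ : ∃ x : H.edgeSet, f ⟨s(a, b), h⟩ = x := ⟨_, rfl⟩
    induction e using Sym2.ind with
    | _ c d =>
      refine ⟨c, d, ⟨he, hm _⟩, ?_⟩
      change vals f s(a, b) = {c, d}
      ext v
      rw [mem_vals f _ h, hfe]
      simp
  have h5 := E_ne (data f hf) h4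
  omega

/-- The explicit map on the edges of the complete graph. -/
def T (e : Sym2 (Fin 8)) : Sym2 (Fin 8) :=
  if e = s(0, 1) then s(5, 7) else
  if e = s(0, 5) then s(1, 7) else
  if e = s(0, 7) then s(4, 5) else
  if e = s(1, 5) then s(6, 7) else
  if e = s(1, 7) then s(0, 4) else
  if e = s(2, 3) then s(4, 6) else
  if e = s(2, 4) then s(3, 6) else
  if e = s(2, 6) then s(3, 5) else
  if e = s(3, 4) then s(6, 7) else
  if e = s(3, 6) then s(4, 5) else
  if e = s(4, 6) then s(2, 5) else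
  if e = s(4, 7) then s(2, 6) else
  if e = s(5, 6) then s(0, 7) else
  if e = s(5, 7) then s(1, 4) else e

lemma T_mem : ∀ e ∈ (⊤ : SimpleGraph (Fin 8)).edgeSet, T e ∈ (⊤ : SimpleGraph (Fin 8)).edgeSet := by
  have : ∀ e : Sym2 (Fin 8), ¬ e.IsDiag → ¬ (T e).IsDiag := by decide +kernel
  intro e he
  rw [SimpleGraph.edgeSet_top] at he ⊢
  exact this e he

/-- The explicit map. -/
def f₀ (e : (⊤ : SimpleGraph (Fin 8)).edgeSet) : (⊤ : SimpleGraph (Fin 8)).edgeSet :=
  ⟨T e, T_mem e e.2⟩

lemma T_block : ∀ a b c : Fin 8, a ≠ b → b ≠ c → a ≠ c →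
    (∀ v ∈ T s(a, b), v ≠ a ∧ v ≠ b ∧ v ≠ c) → (∀ v ∈ T s(b, c), v ≠ a ∧ v ≠ b ∧ v ≠ c) →
    False := by
  decide +kernel

lemma f₀_blocking : Blocking (SimpleGraph.pathGraph 3) f₀ := by
  rintro ⟨φ, hφ⟩
  have inj := φ.injective
  have h01 : (SimpleGraph.pathGraph 3).Adj 0 1 := by
    rw [SimpleGraph.pathGraph_adj]; simp
  have h12 : (SimpleGraph.pathGraph 3).Adj 1 2 := by
    rw [SimpleGraph.pathGraph_adj]; simp
  refine T_block (φ 0) (φ 1) (φ 2) (fun h => absurd (inj h) (by decide))
    (fun h => absurd (inj h) (by decide)) (fun h => absurd (inj h) (by decide)) ?_ ?_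
  · intro v hv
    have := hφ ⟨s(0, 1), h01⟩ v hv
    exact ⟨fun h => this ⟨0, h.symm⟩, fun h => this ⟨1, h.symm⟩, fun h => this ⟨2, h.symm⟩⟩
  · intro v hv
    have := hφ ⟨s(1, 2), h12⟩ v hv
    exact ⟨fun h => this ⟨0, h.symm⟩, fun h => this ⟨1, h.symm⟩, fun h => this ⟨2, h.symm⟩⟩

lemma f₀_moves : 14 ≤ {e | Moves f₀ e}.ncard := by
  have h1 : ((Finset.univ : Finset (Sym2 (Fin 8))).filter
      (fun e => ¬ e.IsDiag ∧ ∀ v ∈ T e, v ∉ e)).card = 14 := by decide +kernel
  rw [← Set.ncard_image_of_injective _ Subtype.val_injective, ← h1, ← Set.ncard_coe_finset]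
  apply Set.ncard_le_ncard
  · intro e he
    rw [Finset.mem_coe, Finset.mem_filter] at he
    refine ⟨⟨e, ?_⟩, he.2.2, rfl⟩
    rw [SimpleGraph.edgeSet_top]
    exact he.2.1
  · exact Set.toFinite _

lemma p_eq : p 8 (SimpleGraph.pathGraph 3) = 14 := by
  apply le_antisymm
  · apply csSup_le
    · exact ⟨14, by decide, f₀, f₀_moves, f₀_blocking⟩
    · rintro m ⟨-, f, hm, hf⟩
      exact hm.trans (moves_le f hf)
  · apply le_csSup
    · exact ⟨14, by rintro m ⟨-, f, hm, hf⟩; exact hm.trans (moves_le f hf)⟩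
    · exact ⟨by decide, f₀, f₀_moves, f₀_blocking⟩

lemma s_le : s 8 (SimpleGraph.pathGraph 3) ≤ 13 := by
  apply csSup_le
  · refine ⟨0, ⊥, fun e => e, ?_, ?_, ?_⟩
    · rintro ⟨e, he⟩
      simp at he
    · rintro ⟨φ, -⟩
      have h01 : (SimpleGraph.pathGraph 3).Adj 0 1 := by
        rw [SimpleGraph.pathGraph_adj]; simp
      exact φ.toHom.map_rel h01
    · simp
  · rintro m ⟨H, f, hm, hf, rfl⟩
    exact host_le f hm hf

/-- The two numbers differ: for the path with two edges and `n = 8` the global number is `14` and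
the host-graph number is at most `13`. -/
theorem result :
    (∃ (U : Type) (_ : Fintype U) (G : SimpleGraph U), G.edgeSet.Nonempty ∧
      ∃ n : ℕ, 4 ≤ n ∧ p n G ≠ s n G) ∧
    p 8 (SimpleGraph.pathGraph 3) = 14 ∧ s 8 (SimpleGraph.pathGraph 3) ≤ 13 := by
  refine ⟨⟨Fin 3, inferInstance, SimpleGraph.pathGraph 3, ⟨s(0, 1), ?_⟩, 8, by norm_num, ?_⟩,
    p_eq, s_le⟩
  · rw [SimpleGraph.mem_edgeSet, SimpleGraph.pathGraph_adj]; simp
  · have h1 := p_eq
    have h2 := s_le
    omega

end Pool.Agent.Results.MP_f12eed_co.PathOnEight
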